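import Pool.Agent.Helper27.AU.U2b
import Pool.Agent.Helper42.SQ.FINg

/-!
# AU, block U3: the limit of the lists of subspaces
-/

set_option autoImplicit false

namespace Pool.Agent.SQ

open NumberField Filter Module
open Pool.Agent.Helper64.Vojta (Pl nv sn above)
open Pool.Agent.V2

universe u

section

variable {k : Type u} [Field k] [NumberField k]

theorem h1z_nonneg (c : k) : 0 ≤ h1z c := gsum_nonneg fun _ => Real.log_nonneg (le_max_left _ _)

theorem hsz_nonneg {n : ℕ} (b : Fin (n + 1) → Fin (n + 1) → k) : 0 ≤ hsz b :=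
  Finset.sum_nonneg fun _ _ => Finset.sum_nonneg fun _ _ => h1z_nonneg _

theorem h1z_le_hsz {n : ℕ} (b : Fin (n + 1) → Fin (n + 1) → k) (i j : Fin (n + 1)) : h1z (b i j) ≤ hsz b := by
  refine le_trans ?_ (Finset.single_le_sum (f := fun i => ∑ j, h1z (b i j))
    (fun i _ => Finset.sum_nonneg fun _ _ => h1z_nonneg _) (Finset.mem_univ i))
  exact Finset.single_le_sum (f := fun j => h1z (b i j)) (fun _ _ => h1z_nonneg _) (Finset.mem_univ j)

theorem cxz_le {n : ℕ} {E : Submodule k (Fin (n + 1) → k)} (b : Fin (n + 1) → Fin (n + 1) → k)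
    (hb : Submodule.span k (Set.range b) = E) : cxz E ≤ hsz b := by
  refine csInf_le ⟨0, ?_⟩ ⟨b, hb, rfl⟩
  rintro _ ⟨b', -, rfl⟩
  exact hsz_nonneg b'

theorem exists_hsz {n : ℕ} (E : Submodule k (Fin (n + 1) → k)) :
    ∃ b : Fin (n + 1) → Fin (n + 1) → k, Submodule.span k (Set.range b) = E ∧ hsz b < cxz E + 1 := by
  obtain ⟨β, hβ⟩ := exists_spz E
  obtain ⟨_, ⟨b, hb, rfl⟩, h⟩ := exists_lt_of_csInf_lt
    (s := {t | ∃ b : Fin (n + 1) → Fin (n + 1) → k, Submodule.span k (Set.range b) = E ∧ hsz b = t})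
    ⟨_, β, hβ, rfl⟩ (lt_add_one (cxz E))
  exact ⟨b, hb, h⟩

theorem htg_h1z {L : Type u} [Field L] [Algebra k L] {G : Type*} [Group G] [Fintype G] {s : G →* (L ≃ₐ[k] L)}
    {N : Pl k → L → ℝ} (h : QSG s N) (c : k) : htg s N (algebraMap k L c) = Fintype.card G * h1z c := by
  unfold htg h1z
  rw [← gsum_const_mul]
  refine congrArg gsum (funext fun v => ?_)
  rw [← nsmul_eq_mul, ← Finset.card_univ, ← Finset.sum_const]
  refine Finset.sum_congr rfl fun g _ => ?_
  rw [AlgEquiv.commutes, h.ext]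

end

section

variable {k : Type u} [Field k] [NumberField k] {G : Type} [Group G] [Fintype G] {D : SqG k G} (F : GFG D) {n q : ℕ}

private theorem gmspan_u4 {k Λ : Type*} [Field k] [Field Λ] {U : Ultrafilter ℕ} (T : Trz k Λ U) {n : ℕ}
    (E : Submodule Λ (Fin (n + 1) → Λ)) : ∃ β : Fin (n + 1) → Fin (n + 1) → Λ, Submodule.span Λ (Set.range β) = E ∧
      ∀ a, Gm T E a = Submodule.span k (Set.range fun (i : Fin (n + 1)) (j : Fin (n + 1)) => T.rp (β i j) a) :=
  ⟨_, Classical.choose_spec (exists_spz E), fun _ => rfl⟩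

theorem gm_ker {x : ∀ a, Fin (n + 1) → D.L a} (ξ : Fin (n + 1) → F.K)
    (hξ : ∀ j, ∀ᶠ a in (D.U : Filter ℕ), F.rp (ξ j) a = x a j) (E : Submodule (slk F) (Fin (n + 1) → slk F))
    (hE : E ≤ kerS F ξ) : ∀ᶠ a in (D.U : Filter ℕ), ∀ m ∈ Gm (trs F) E a, lvg m (x a) = 0 := by
  obtain ⟨β, hβ, hG⟩ := gmspan_u4 (trs F) E
  have hrp0 : ∀ᶠ a in (D.U : Filter ℕ), F.rp 0 a = 0 := by
    filter_upwards [F.rp_alg 0] with a ha
    rw [map_zero, map_zero] at ha
    exact ha
  have hsum : ∀ (s : Finset (Fin (n + 1))) (f : Fin (n + 1) → F.K),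
      ∀ᶠ a in (D.U : Filter ℕ), F.rp (∑ j ∈ s, f j) a = ∑ j ∈ s, F.rp (f j) a := by
    intro s f
    classical
    induction s using Finset.induction_on with
    | empty =>
      filter_upwards [hrp0] with a ha
      rw [Finset.sum_empty, Finset.sum_empty, ha]
    | insert i s hi ih =>
      filter_upwards [ih, F.rp_add (f i) (∑ j ∈ s, f j)] with a h1 h2
      rw [Finset.sum_insert hi, Finset.sum_insert hi, h2, h1]
  have h1 : ∀ i, ∀ᶠ a in (D.U : Filter ℕ), lvg (fun j => (trs F).rp (β i j) a) (x a) = 0 := by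
    intro i
    have h2 : ∑ j, β i j • ξ j = 0 := by
      rw [← mem_kerS]
      apply hE
      rw [← hβ]
      exact Submodule.subset_span ⟨i, rfl⟩
    have h3 : ∀ᶠ a in (D.U : Filter ℕ), ∀ j, F.rp (β i j • ξ j) a = algebraMap k (D.L a) ((trs F).rp (β i j) a) * x a j := by
      rw [eventually_all]
      intro j
      filter_upwards [trs_rp F (β i j), hξ j, F.rp_mul (β i j : F.K) (ξ j)] with a h4 h5 h6
      rw [← h4, ← h5, ← h6]
      rfl
    filter_upwards [h3, hsum Finset.univ fun j => β i j • ξ j, hrp0] with a h4 h5 h6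
    rw [h2, h6] at h5
    unfold lvg
    rw [h5]
    exact Finset.sum_congr rfl fun j _ => (h4 j).symm
  rw [← eventually_all] at h1
  filter_upwards [h1] with a h2 m hm
  rw [hG] at hm
  have h3 : Submodule.span k (Set.range fun (i : Fin (n + 1)) (j : Fin (n + 1)) => (trs F).rp (β i j) a) ≤
      LinearMap.ker (Fintype.linearCombination k (x a)) := by
    rw [Submodule.span_le]
    rintro _ ⟨i, rfl⟩
    rw [SetLike.mem_coe, LinearMap.mem_ker, Fintype.linearCombination_apply]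
    have h4 := h2 i
    unfold lvg at h4
    rw [← h4]
    exact Finset.sum_congr rfl fun j _ => Algebra.smul_def _ _
  have h4 := h3 hm
  rw [LinearMap.mem_ker, Fintype.linearCombination_apply] at h4
  unfold lvg
  rw [← h4]
  exact Finset.sum_congr rfl fun j _ => (Algebra.smul_def _ _).symm

/-- the height of a subspace over the slow germs is small -/
theorem cxz_gm (E : Submodule (slk F) (Fin (n + 1) → slk F)) {ε : ℝ} (hε : 0 < ε) :
    ∀ᶠ a in (D.U : Filter ℕ), cxz (Gm (trs F) E a) ≤ ε * D.H a := by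
  obtain ⟨β, hβ, hG⟩ := gmspan_u4 (trs F) E
  have hc0 : (0 : ℝ) < Fintype.card G := by exact_mod_cast Fintype.card_pos
  have hn : (0 : ℝ) < (n + 1) * (n + 1) := by positivity
  have h1 : ∀ i j, ∀ᶠ a in (D.U : Filter ℕ), h1z ((trs F).rp (β i j) a) ≤ ε / ((n + 1) * (n + 1)) * D.H a := by
    intro i j
    have h2 := (β i j).2.2 (Fintype.card G * (ε / ((n + 1) * (n + 1)))) (by positivity)
    filter_upwards [h2, trs_rp F (β i j)] with a h3 h4
    rw [h4, htg_h1z (D.qs a), mul_assoc] at h3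
    exact le_of_mul_le_mul_left h3 hc0
  have h2 : ∀ᶠ a in (D.U : Filter ℕ), ∀ i j, h1z ((trs F).rp (β i j) a) ≤ ε / ((n + 1) * (n + 1)) * D.H a := by
    rw [eventually_all]
    intro i
    rw [eventually_all]
    exact h1 i
  filter_upwards [h2] with a h3
  refine (cxz_le (fun i j => (trs F).rp (β i j) a) (hG a).symm).trans ?_
  refine (Finset.sum_le_sum fun i _ => Finset.sum_le_sum fun j _ => h3 i j).trans (le_of_eq ?_)
  simp only [Finset.sum_const, Finset.card_univ, Fintype.card_fin, nsmul_eq_mul]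
  push_cast
  field_simp

/-- A sequence of subspaces of small height has a germ over the slow germs. -/
theorem exists_gm (E : ℕ → Submodule k (Fin (n + 1) → k))
    (hE : ∀ ε : ℝ, 0 < ε → ∀ᶠ a in (D.U : Filter ℕ), cxz (E a) ≤ ε * D.H a) :
    ∃ E' : Submodule (slk F) (Fin (n + 1) → slk F), ∀ᶠ a in (D.U : Filter ℕ), Gm (trs F) E' a = E a := by
  choose b hb hb1 using fun a => exists_hsz (E a)
  have hc0 : (0 : ℝ) < Fintype.card G := by exact_mod_cast Fintype.card_pos
  have h1 : ∀ i j, SlowG D fun a => algebraMap k (D.L a) (b a i j) := by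
    intro i j ε hε
    filter_upwards [hE (ε / Fintype.card G / 2) (by positivity),
      D.H1.eventually_ge_atTop (2 / (ε / Fintype.card G))] with a h2 h3
    rw [htg_h1z (D.qs a)]
    rw [div_le_iff₀ (by positivity)] at h3
    have h4 := h1z_le_hsz (b a) i j
    have h5 := hb1 a
    have h6 : h1z (b a i j) ≤ ε / Fintype.card G * D.H a := by linarith
    have h7 := mul_le_mul_of_nonneg_left h6 hc0.le
    refine h7.trans (le_of_eq ?_)
    field_simp
  have h2 : ∀ i j, ∃ w : F.K, ∀ᶠ a in (D.U : Filter ℕ), F.rp w a = algebraMap k (D.L a) (b a i j) := fun i j =>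
    F.rp_surj _ ⟨1, h1 i j 1 one_pos⟩
  choose w hw using h2
  have hws : ∀ i j, w i j ∈ slk F := by
    intro i j
    refine mem_slk.2 ⟨fun g => ?_, (h1 i j).congr (hw i j)⟩
    apply F.rp_inj
    filter_upwards [F.rp_s g (w i j), hw i j] with a h2 h3
    rw [h2, h3]
    exact AlgEquiv.commutes _ _
  refine ⟨Submodule.span (slk F) (Set.range fun (i : Fin (n + 1)) (j : Fin (n + 1)) => (⟨w i j, hws i j⟩ : slk F)), ?_⟩
  filter_upwards [gm_span (trs F) (fun (i : Fin (n + 1)) (j : Fin (n + 1)) => (⟨w i j, hws i j⟩ : slk F)) b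
    (fun i j => trs_eq F _ _ (hw i j))] with a h3
  rw [h3, hb a]

theorem lim_cpl (l : Fin q → Fin (n + 1) → slk F) (lr : ℕ → Fin q → Fin (n + 1) → k)
    (hlr : ∀ i j, ∀ᶠ a in (D.U : Filter ℕ), F.rp (l i j : F.K) a = algebraMap k (D.L a) (lr a i j))
    (M : ℕ) (T : ℕ → Finset (Submodule k (Fin (n + 1) → k))) (hM : ∀ a, (T a).card ≤ M) (hT : ∀ a, CplN (lr a) (T a)) :
    ∃ TT : Finset (Submodule (slk F) (Fin (n + 1) → slk F)), Cpl l TT ∧
      ∀ E ∈ TT, ∀ᶠ a in (D.U : Filter ℕ), Gm (trs F) E a ∈ T a := by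
  classical
  have hlr' : ∀ i j, ∀ᶠ a in (D.U : Filter ℕ), (trs F).rp (l i j) a = lr a i j := fun i j => trs_eq F _ _ (hlr i j)
  have hfin : {E : Submodule (slk F) (Fin (n + 1) → slk F) | ∀ᶠ a in (D.U : Filter ℕ), Gm (trs F) E a ∈ T a}.Finite := by
    by_contra hinf
    have hinf' : Set.Infinite {E : Submodule (slk F) (Fin (n + 1) → slk F) |
        ∀ᶠ a in (D.U : Filter ℕ), Gm (trs F) E a ∈ T a} := hinf
    obtain ⟨t, ht, htc⟩ := hinf'.exists_subset_card_eq (M + 1)
    have h1 : ∀ᶠ a in (D.U : Filter ℕ), ∀ E ∈ t, Gm (trs F) E a ∈ T a := by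
      rw [Filter.eventually_all_finset]
      exact fun E hE => ht hE
    have h2 : ∀ᶠ a in (D.U : Filter ℕ), ∀ E ∈ t, ∀ E' ∈ t, Gm (trs F) E a = Gm (trs F) E' a → E = E' := by
      rw [Filter.eventually_all_finset]
      intro E _
      rw [Filter.eventually_all_finset]
      intro E' _
      by_cases h : E = E'
      · exact Eventually.of_forall fun _ _ => h
      · have h3 : ¬ ∀ᶠ a in (D.U : Filter ℕ), Gm (trs F) E a = Gm (trs F) E' a := fun h4 => h ((gm_inj (trs F) E E').2 h4)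
        rw [← Ultrafilter.eventually_not] at h3
        filter_upwards [h3] with a h4 h5
        exact absurd h5 h4
    obtain ⟨a, h3, h4⟩ := (h1.and h2).exists
    have h5 : (t.image fun E => Gm (trs F) E a) ⊆ T a := by
      intro X hX
      obtain ⟨E, hE, rfl⟩ := Finset.mem_image.1 hX
      exact h3 E hE
    have h6 := Finset.card_le_card h5
    rw [Finset.card_image_of_injOn (fun E hE E' hE' h => h4 E hE E' hE' h), htc] at h6
    have := hM a
    omega
  refine ⟨hfin.toFinset, ⟨?_, ?_⟩, fun E hE => (Set.Finite.mem_toFinset hfin).1 hE⟩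
  · rw [Set.Finite.mem_toFinset]
    filter_upwards [gm_bot (trs F) (n := n)] with a h1
    rw [h1]
    exact (hT a).1
  intro E hE hEt
  rw [Set.Finite.mem_toFinset] at hE
  have hE' : ∀ᶠ a in (D.U : Filter ℕ), Gm (trs F) E a ∈ T a := hE
  have hEt' : ∀ᶠ a in (D.U : Filter ℕ), Gm (trs F) E a ≠ ⊤ := by
    have h1 := (gm_lt (trs F) E ⊤).1 (lt_top_iff_ne_top.2 hEt)
    filter_upwards [h1] with a h2
    exact ne_top_of_lt h2
  refine ⟨fun 𝒥 h𝒥 => ?_, fun V hV => ?_⟩
  · rw [Set.Finite.mem_toFinset]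
    have h1 := (gm_lt (trs F) E _).1 h𝒥
    show ∀ᶠ a in (D.U : Filter ℕ), Gm (trs F) (mtz l E 𝒥) a ∈ T a
    filter_upwards [hE', hEt', h1, gm_mtz (trs F) l lr hlr' E 𝒥] with a h2 h3 h4 h5
    rw [h5] at h4 ⊢
    exact ((hT a).2 _ h2 h3).1 𝒥 h4
  · have h1 := (gm_lt (trs F) E V).1 hV
    have h2 : ∀ᶠ a in (D.U : Filter ℕ), ∃ X, X ∈ T a ∧ Gm (trs F) E a < X ∧
        vez (lr a) (Gm (trs F) E a) X = vez (lr a) (Gm (trs F) E a) (Gm (trs F) V a) ∧
        cxz X ≤ cxz (Gm (trs F) V a) + 1 := by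
      filter_upwards [hE', hEt', h1] with a h3 h4 h5
      exact ((hT a).2 _ h3 h4).2 _ h5
    obtain ⟨X, hX⟩ := h2.choice
    obtain ⟨V', hV'⟩ := exists_gm F X (by
      intro ε hε
      filter_upwards [hX, cxz_gm F V (half_pos hε), D.H1.eventually_ge_atTop (2 / ε)] with a h3 h4 h5
      rw [div_le_iff₀ hε] at h5
      have := h3.2.2.2
      linarith)
    refine ⟨V', ?_, ?_, ?_⟩
    · rw [Set.Finite.mem_toFinset]
      show ∀ᶠ a in (D.U : Filter ℕ), Gm (trs F) V' a ∈ T a
      filter_upwards [hX, hV'] with a h3 h4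
      rw [h4]
      exact h3.1
    · rw [gm_lt (trs F)]
      filter_upwards [hX, hV'] with a h3 h4
      rw [h4]
      exact h3.2.1
    · obtain ⟨a, h3, h4, h5, h6⟩ := (hX.and (hV'.and ((gm_vez (trs F) l lr hlr' E V').and
        (gm_vez (trs F) l lr hlr' E V)))).exists
      rw [← h5, ← h6, h4]
      exact h3.2.2.1

end

end Pool.Agent.SQ
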