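import Pool.Agent.Helper4.AU.Defs
import Pool.Agent.Helper42.SQ.LIN

/-!
# AU, block U1a: a list of subspaces which is closed under the operations of the tree
-/

set_option autoImplicit false

namespace Pool.Agent.SQ

open Module

private theorem finrank_comap_u4 {k : Type*} [Field k] {V : Type*} [AddCommGroup V] [Module k V] [FiniteDimensional k V]
    (E : Submodule k V) (X : Submodule k (V ⧸ E)) : finrank k (X.comap E.mkQ) = finrank k X + finrank k E := by
  have h1 : E ≤ X.comap E.mkQ := by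
    intro x hx
    rw [Submodule.mem_comap, (Submodule.Quotient.mk_eq_zero E).2 hx |> fun h => (show E.mkQ x = 0 from h)]
    exact X.zero_mem
  have h2 := LinearMap.finrank_range_add_finrank_ker (E.mkQ.domRestrict (X.comap E.mkQ))
  have h3 : LinearMap.range (E.mkQ.domRestrict (X.comap E.mkQ)) = X := by
    rw [LinearMap.range_domRestrict, Submodule.map_comap_eq_of_surjective E.mkQ_surjective]
  have h4 : finrank k (LinearMap.ker (E.mkQ.domRestrict (X.comap E.mkQ))) = finrank k E := by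
    have h5 : LinearMap.ker (E.mkQ.domRestrict (X.comap E.mkQ)) = E.comap (X.comap E.mkQ).subtype := by
      ext x
      simp [LinearMap.mem_ker]
    rw [h5]
    exact (Submodule.comapSubtypeEquivOfLe h1).finrank_eq
  rw [h3, h4] at h2
  exact h2.symm

/-- one step of the tree -/
private theorem step_u4 {k : Type*} [Field k] {n q : ℕ} (l : Fin q → Fin (n + 1) → k) (hl : GenPos l)
    (T : Finset (Submodule k (Fin (n + 1) → k))) (hT : Cpl l T)
    (E : Submodule k (Fin (n + 1) → k)) (hET : E ∈ T) (hEt : E ≠ ⊤) (hEl : ∀ i, l i ∉ E) (hb : ¬ Bad l E)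
    (N : Submodule k (Fin (n + 1) → k)) (hEN : E ≤ N)
    (m : ℕ) (W : Fin m → Submodule k (Fin (n + 1) → k)) (w : Fin m → ℝ) (hNW : ∀ j, N ≤ W j) (hWt : ∀ j, W j ≠ ⊤)
    (hw : ∀ j, 0 ≤ w j) (hx : open Classical in ∀ x, x ∉ N → ∑ j with x ∈ W j, w j ≤ 1)
    (B : ℕ → ℝ) (hB1 : ∀ d D : ℕ, 1 ≤ d → d ≤ D → D ≤ n + 1 → B d * D ≤ B D * d)
    (hB2 : ∀ p : ℕ, p ≤ n → B (n + 1 - p) + 2 * p ≤ B (n + 1))
    (hd : ∀ E ∈ T, ¬ E ≤ N → ∑ j, w j * ((finrank k ↥(E ⊓ W j) : ℝ) - finrank k ↥(E ⊓ N)) ≤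
      B (finrank k E - finrank k ↥(E ⊓ N)))
    (hbig : open Classical in B (n + 1) < ∑ j, w j * ((Finset.univ.filter fun i => l i ∈ W j).card : ℝ)) :
    ∃ E' ∈ T, E < E' ∧ E' ≤ N := by
  classical
  obtain ⟨hTm, hTv⟩ := hT.2 E hET hEt
  set π := E.mkQ with hπ
  have hπs : Function.Surjective π := E.mkQ_surjective
  have hπ0 : ∀ x, π x = 0 ↔ x ∈ E := fun x => Submodule.Quotient.mk_eq_zero E
  have hcm : ∀ X : Submodule k (Fin (n + 1) → k), E ≤ X → (X.map π).comap π = X := by
    intro X hX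
    rw [Submodule.comap_map_eq, hπ, Submodule.ker_mkQ, sup_eq_left.2 hX]
  have hEc : ∀ X : Submodule k ((Fin (n + 1) → k) ⧸ E), E ≤ X.comap π := by
    intro X x hx
    rw [Submodule.mem_comap, (hπ0 x).2 hx]
    exact X.zero_mem
  have hnt : Nontrivial ((Fin (n + 1) → k) ⧸ E) := Submodule.Quotient.nontrivial_iff.2 hEt
  let F : Finset (Fin q) → Submodule k ((Fin (n + 1) → k) ⧸ E) := fun J =>
    Submodule.span k ((fun i => π (l i)) '' (J : Set (Fin q)))
  have hF : ∀ J, F J = (spJ l E J).map π := by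
    intro J
    have h1 : E.map π = ⊥ := by
      rw [eq_bot_iff]
      rintro _ ⟨x, hx, rfl⟩
      exact (Submodule.mem_bot k).2 ((hπ0 x).2 hx)
    unfold spJ
    rw [Submodule.map_sup, h1, bot_sup_eq, Submodule.map_span, ← Set.image_comp]
    rfl
  have hEs : ∀ J, E ≤ spJ l E J := fun J => le_sup_left
  have hFs : ∀ J, (F J).comap π = spJ l E J := fun J => by
    rw [hF, hcm _ (hEs J)]
  have hmt : ∀ 𝒥 : Finset (Finset (Fin q)), (⨅ J ∈ 𝒥, F J).comap π = mtz l E 𝒥 := by
    intro 𝒥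
    unfold mtz
    simp only [Submodule.comap_iInf, hFs]
  let J : Fin m → Finset (Fin q) := fun j => Finset.univ.filter fun i => l i ∈ W j
  have hEW : ∀ j, E ≤ W j := fun j => hEN.trans (hNW j)
  have hFW : ∀ j, F (J j) ≤ (W j).map π := by
    intro j
    refine Submodule.span_le.2 ?_
    rintro _ ⟨i, hi, rfl⟩
    exact Submodule.mem_map_of_mem (Finset.mem_filter.1 (Finset.mem_coe.1 hi)).2
  have hFc : ∀ j x, π x ∈ F (J j) → x ∈ W j := by
    intro j x h
    rw [← hcm (W j) (hEW j)]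
    exact hFW j h
  have hFt : ∀ j, F (J j) ≠ ⊤ := by
    intro j h
    apply hWt j
    rw [eq_top_iff]
    intro x _
    exact hFc j x (by rw [h]; trivial)
  by_cases hc : ∃ x : (Fin (n + 1) → k) ⧸ E, x ≠ 0 ∧ 1 < ∑ j with x ∈ F (J j), w j
  · -- a heavy vector
    obtain ⟨x, hx0, hx1⟩ := hc
    obtain ⟨x', rfl⟩ := hπs x
    let 𝒥 : Finset (Finset (Fin q)) := Finset.univ.filter fun J => π x' ∈ F J
    have hxI : π x' ∈ ⨅ J ∈ 𝒥, F J := by
      rw [Submodule.mem_iInf]
      intro J
      rw [Submodule.mem_iInf]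
      intro hJ
      exact (Finset.mem_filter.1 hJ).2
    have hlt : E < mtz l E 𝒥 := by
      rw [← hmt]
      refine lt_of_le_of_ne (hEc _) ?_
      intro h2
      apply hx0
      rw [hπ0, h2]
      exact hxI
    refine ⟨mtz l E 𝒥, hTm 𝒥 hlt, hlt, ?_⟩
    rw [← hmt]
    intro y hy
    by_contra hyN
    have h1 := hx y hyN
    have h2 : ∑ j with π x' ∈ F (J j), w j ≤ ∑ j with y ∈ W j, w j := by
      refine Finset.sum_le_sum_of_subset_of_nonneg ?_ fun j _ _ => hw j
      intro j hj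
      rw [Finset.mem_filter] at hj ⊢
      refine ⟨Finset.mem_univ _, hFc j y ?_⟩
      have h3 : J j ∈ 𝒥 := Finset.mem_filter.2 ⟨Finset.mem_univ _, hj.2⟩
      have h4 : (⨅ J ∈ 𝒥, F J) ≤ F (J j) := iInf₂_le (J j) h3
      exact h4 hy
    linarith
  · push Not at hc
    have hC := comb_of_not_bad l hl E hEl hb
    have h1 := hC m (fun j => F (J j)) w hFt hw (fun x hx0 => by
      convert hc x hx0)
    -- the number of forms
    have h2 : ∑ j, w j * ((Finset.univ.filter fun i => l i ∈ W j).card : ℝ) ≤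
        ∑ j, w j * ((Finset.univ.filter fun i => E.mkQ (l i) ∈ F (J j)).card : ℝ) := by
      refine Finset.sum_le_sum fun j _ => mul_le_mul_of_nonneg_left ?_ (hw j)
      rw [Nat.cast_le]
      refine Finset.card_le_card ?_
      intro i hi
      rw [Finset.mem_filter] at hi ⊢
      refine ⟨Finset.mem_univ _, Submodule.subset_span ⟨i, ?_, rfl⟩⟩
      exact Finset.mem_coe.2 (Finset.mem_filter.2 hi)
    have h3 : ∑ j, w j * ((Finset.univ.filter fun i => l i ∈ W j).card : ℝ) ≤
        ∑ j, w j * (finrank k (F (J j)) : ℝ) + 2 * finrank k E := by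
      refine h2.trans (le_trans (le_of_eq ?_) h1)
      refine Finset.sum_congr rfl fun j _ => ?_
      congr
    -- the maximal slope
    let ρ : Finset (Fin q) → ℝ := fun J' => ∑ j with J j = J', w j
    have hwt : ∀ U, wtz F ρ U = ∑ j, w j * (finrank k ↥(U ⊓ F (J j)) : ℝ) := by
      intro U
      unfold wtz
      rw [← Finset.sum_fiberwise Finset.univ J fun j => w j * (finrank k ↥(U ⊓ F (J j)) : ℝ)]
      refine Finset.sum_congr rfl fun J' _ => ?_
      rw [Finset.sum_mul]
      refine Finset.sum_congr rfl fun j hj => ?_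
      rw [(Finset.mem_filter.1 hj).2]
    have hcap : ∀ X Y : Submodule k (Fin (n + 1) → k), E ≤ X → E ≤ Y →
        finrank k ↥(X ⊓ Y) = finrank k ↥(X.map π ⊓ Y.map π) + finrank k E := by
      intro X Y hX hY
      rw [← finrank_comap_u4, ← hπ, Submodule.comap_inf, hcm X hX, hcm Y hY]
    have hfm : ∀ X : Submodule k (Fin (n + 1) → k), E ≤ X → finrank k X = finrank k (X.map π) + finrank k E := by
      intro X hX
      rw [← finrank_comap_u4, ← hπ, hcm X hX]
    have hpos : ∀ X : Submodule k (Fin (n + 1) → k), E < X → (0 : ℝ) < finrank k (X.map π) := by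
      intro X hX
      have h1 := Submodule.finrank_lt_finrank_of_lt hX
      rw [hfm X hX.le] at h1
      exact_mod_cast (by omega : 0 < finrank k (X.map π))
    obtain ⟨X, hXT, hUmax⟩ : ∃ X ∈ T, E < X ∧ ∀ U' : Submodule k ((Fin (n + 1) → k) ⧸ E),
        wtz F ρ U' * finrank k (X.map π) ≤ wtz F ρ (X.map π) * finrank k U' := by
      have hne : (T.filter fun X => E < X).Nonempty := by
        obtain ⟨X, hX, hEX, -⟩ := hTv ⊤ (lt_top_iff_ne_top.2 hEt)
        exact ⟨X, Finset.mem_filter.2 ⟨hX, hEX⟩⟩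
      obtain ⟨X, hX, hmax⟩ := Finset.exists_max_image (T.filter fun X => E < X)
        (fun X => wtz F ρ (X.map π) / finrank k (X.map π)) hne
      have hX' := Finset.mem_filter.1 hX
      refine ⟨X, hX'.1, hX'.2, fun U' => ?_⟩
      by_cases hU' : U' = ⊥
      · subst hU'
        have h3 : wtz F ρ ⊥ = 0 := by
          unfold wtz
          refine Finset.sum_eq_zero fun j _ => ?_
          rw [bot_inf_eq, finrank_bot, Nat.cast_zero, mul_zero]
        rw [h3, finrank_bot, Nat.cast_zero, mul_zero, zero_mul]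
      · have hEU : E < U'.comap π := by
          refine lt_of_le_of_ne (hEc U') fun h => hU' ?_
          rw [← Submodule.map_comap_eq_of_surjective hπs U', ← h, eq_bot_iff]
          rintro _ ⟨x, hx, rfl⟩
          exact (Submodule.mem_bot k).2 ((hπ0 x).2 hx)
        obtain ⟨X2, hX2, hEX2, h4⟩ := hTv (U'.comap π) hEU
        have hmU : (U'.comap π).map π = U' := Submodule.map_comap_eq_of_surjective hπs U'
        have h5 : finrank k (X2.map π) = finrank k U' := by
          have h := congrArg Prod.fst h4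
          change finrank k X2 = finrank k (U'.comap π) at h
          rw [hfm X2 hEX2.le, hfm _ hEU.le, hmU] at h
          omega
        have h6 : ∀ j, finrank k ↥(X2.map π ⊓ F j) = finrank k ↥(U' ⊓ F j) := by
          intro j
          have h := congrFun (congrArg Prod.snd h4) j
          change finrank k ↥(X2 ⊓ spJ l E j) = finrank k ↥(U'.comap π ⊓ spJ l E j) at h
          rw [hcap X2 _ hEX2.le (hEs j), hcap _ _ hEU.le (hEs j), hmU, ← hF] at h
          omega
        have h7 : wtz F ρ (X2.map π) = wtz F ρ U' := Finset.sum_congr rfl fun j _ => by rw [h6 j]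
        have h8 := hmax X2 (Finset.mem_filter.2 ⟨hX2, hEX2⟩)
        simp only [h7, h5] at h8
        rw [div_le_div_iff₀ (h5 ▸ hpos X2 hEX2) (hpos X hX'.2)] at h8
        exact h8
    obtain ⟨hEX, hUmax⟩ := hUmax
    refine ⟨X, hXT, hEX, ?_⟩
    by_contra hUN
    have h4 := hd _ hXT hUN
    set U := X.map π with hU
    rw [hcap X N hEX.le hEN, hfm X hEX.le] at h4
    have hlt : finrank k ↥(U ⊓ N.map π) < finrank k U := by
      refine Submodule.finrank_lt_finrank_of_lt (lt_of_le_of_ne inf_le_left fun h => hUN ?_)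
      rw [← hcm N hEN, ← hcm X hEX.le]
      exact Submodule.comap_mono (inf_eq_left.1 h)
    have hUd : finrank k U ≤ finrank k ((Fin (n + 1) → k) ⧸ E) := Submodule.finrank_le U
    have hQ : finrank k ((Fin (n + 1) → k) ⧸ E) + finrank k E = n + 1 := by
      rw [Submodule.finrank_quotient_add_finrank, Module.finrank_fin_fun]
    have h5 : ∀ j, (finrank k ↥(U ⊓ F (J j)) : ℝ) - finrank k ↥(U ⊓ N.map π ⊓ F (J j)) ≤
        (finrank k ↥(X ⊓ W j) : ℝ) - (finrank k ↥(U ⊓ N.map π) + finrank k E : ℕ) := by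
      intro j
      rw [hcap X (W j) hEX.le (hEW j)]
      have h6 := Submodule.finrank_sup_add_finrank_inf_eq (U ⊓ F (J j)) (U ⊓ N.map π)
      have h7 : (U ⊓ F (J j)) ⊓ (U ⊓ N.map π) = U ⊓ N.map π ⊓ F (J j) := by
        rw [inf_inf_inf_comm, inf_idem, inf_assoc, inf_comm (F (J j))]
      have h8 : finrank k ↥((U ⊓ F (J j)) ⊔ (U ⊓ N.map π)) ≤ finrank k ↥(U ⊓ (W j).map π) := by
        refine Submodule.finrank_mono (sup_le (inf_le_inf_left U (hFW j)) (inf_le_inf_left U (Submodule.map_mono (hNW j))))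
      rw [h7] at h6
      have h9 : (finrank k ↥((U ⊓ F (J j)) ⊔ (U ⊓ N.map π)) : ℝ) + finrank k ↥(U ⊓ N.map π ⊓ F (J j)) =
          finrank k ↥(U ⊓ F (J j)) + finrank k ↥(U ⊓ N.map π) := by exact_mod_cast h6
      have h10 : (finrank k ↥((U ⊓ F (J j)) ⊔ (U ⊓ N.map π)) : ℝ) ≤ finrank k ↥(U ⊓ (W j).map π) := by exact_mod_cast h8
      push_cast
      linarith
    have h6 : wtz F ρ U - wtz F ρ (U ⊓ N.map π) ≤ B (finrank k U + finrank k E - (finrank k ↥(U ⊓ N.map π) + finrank k E)) := by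
      refine le_trans ?_ h4
      rw [hwt, hwt, ← Finset.sum_sub_distrib]
      refine Finset.sum_le_sum fun j _ => ?_
      rw [← mul_sub]
      exact mul_le_mul_of_nonneg_left (h5 j) (hw j)
    rw [Nat.add_sub_add_right] at h6
    have h7 := hUmax (U ⊓ N.map π)
    have h8 := hUmax ⊤
    rw [finrank_top] at h8
    have h9 : wtz F ρ ⊤ = ∑ j, w j * (finrank k (F (J j)) : ℝ) := by
      rw [hwt]
      refine Finset.sum_congr rfl fun j _ => ?_
      rw [top_inf_eq]
    have hp : finrank k E ≤ n := by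
      have := Submodule.finrank_lt hEt
      rw [Module.finrank_fin_fun] at this
      omega
    have h10 := hB2 (finrank k E) hp
    have hD : n + 1 - finrank k E = finrank k ((Fin (n + 1) → k) ⧸ E) := by omega
    rw [hD] at h10
    have h11 : B (finrank k ((Fin (n + 1) → k) ⧸ E)) < wtz F ρ ⊤ := by
      rw [h9]
      linarith
    have h12 := hB1 (finrank k U - finrank k ↥(U ⊓ N.map π)) (finrank k ((Fin (n + 1) → k) ⧸ E)) (by omega) (by omega) (by omega)
    obtain ⟨a, ha⟩ : ∃ a : ℝ, a = finrank k U := ⟨_, rfl⟩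
    obtain ⟨b, hb'⟩ : ∃ b : ℝ, b = finrank k ↥(U ⊓ N.map π) := ⟨_, rfl⟩
    obtain ⟨D, hD'⟩ : ∃ D : ℝ, D = finrank k ((Fin (n + 1) → k) ⧸ E) := ⟨_, rfl⟩
    have hcast : ((finrank k U - finrank k ↥(U ⊓ N.map π) : ℕ) : ℝ) = a - b := by
      rw [Nat.cast_sub hlt.le, ha, hb']
    rw [hcast, ← hD'] at h12
    rw [← ha, ← hb'] at h7
    rw [← ha, ← hD'] at h8
    have hab : b < a := by
      rw [ha, hb']
      exact_mod_cast hlt
    have ha0 : 0 < a := lt_of_le_of_lt (by rw [hb']; positivity) hab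
    have hD0 : 0 < D := by
      have : a ≤ D := by
        rw [ha, hD']
        exact_mod_cast hUd
      linarith
    have h13 : (a - b) * wtz F ρ U ≤ a * B (finrank k U - finrank k ↥(U ⊓ N.map π)) := by
      have := mul_le_mul_of_nonneg_left h6 ha0.le
      linarith
    have h14 : (a - b) * wtz F ρ U * D ≤ a * (B (finrank k ((Fin (n + 1) → k) ⧸ E)) * (a - b)) := by
      refine (mul_le_mul_of_nonneg_right h13 hD0.le).trans ?_
      rw [mul_assoc]
      exact mul_le_mul_of_nonneg_left h12 ha0.le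
    have h15 : (a - b) * (wtz F ρ ⊤ * a) ≤ (a - b) * (wtz F ρ U * D) :=
      mul_le_mul_of_nonneg_left h8 (by linarith)
    have h16 : a * (a - b) * wtz F ρ ⊤ ≤ a * (a - b) * B (finrank k ((Fin (n + 1) → k) ⧸ E)) := by
      nlinarith
    have h17 : 0 < a * (a - b) := mul_pos ha0 (by linarith)
    have := le_of_mul_le_mul_left h16 h17
    linarith

open Classical in
/-- A closed list of subspaces decides: the exceptional subspaces are its `Bad` members. -/
theorem zl_of_cpl {k : Type*} [Field k] {n q : ℕ} (l : Fin q → Fin (n + 1) → k) (hl : GenPos l)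
    (T : Finset (Submodule k (Fin (n + 1) → k))) (hT : Cpl l T) : ZL l (T.filter fun E => Bad l E) T := by
  refine ⟨fun E hE => (Finset.mem_filter.1 hE).2, ?_⟩
  intro N hNt hlN hAN m W w hNW hWt hw hx B hB1 hB2 hd
  by_contra hcon
  push Not at hcon
  have hne : (T.filter fun E => E ≤ N).Nonempty := ⟨⊥, Finset.mem_filter.2 ⟨hT.1, bot_le⟩⟩
  obtain ⟨E, hE, hmax⟩ := Finset.exists_max_image (T.filter fun E => E ≤ N) (fun E => finrank k E) hne
  obtain ⟨hET, hEN⟩ := Finset.mem_filter.1 hE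
  have hEt : E ≠ ⊤ := fun h => hNt (top_le_iff.1 (h ▸ hEN))
  have hEl : ∀ i, l i ∉ E := fun i h => hlN i (hEN h)
  have hb : ¬ Bad l E := fun h => hAN E (Finset.mem_filter.2 ⟨hET, h⟩) hEN
  obtain ⟨E', hE'T, hEE', hE'N⟩ := step_u4 l hl T hT E hET hEt hEl hb N hEN m W w hNW hWt hw
    (fun x hxN => by convert hx x hxN) B hB1 hB2 hd (by convert hcon)
  have h1 := hmax E' (Finset.mem_filter.2 ⟨hE'T, hE'N⟩)
  have h2 := Submodule.finrank_lt_finrank_of_lt hEE'
  omega

end Pool.Agent.SQ
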