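import Pool.Agent.Helper42.SQ.GDefs3
import Pool.Agent.Helper4.AZ.Defs

/-!
# AU: the exceptional set, uniformly in the hyperplanes (definitions)
-/

set_option autoImplicit false

namespace Pool.Agent.SQ

open NumberField Filter Module
open Pool.Agent.Helper64.Vojta (Pl nv sn above)
open Pool.Agent.V2

universe u

/-! ### the tree -/

section

variable {k : Type*} [Field k] {n q : ℕ}

/-- the intersection of the spaces `spJ l E J`, `J ∈ 𝒥` -/
def mtz (l : Fin q → Fin (n + 1) → k) (E : Submodule k (Fin (n + 1) → k)) (𝒥 : Finset (Finset (Fin q))) :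
    Submodule k (Fin (n + 1) → k) :=
  ⨅ J ∈ 𝒥, spJ l E J

/-- the dimensions of the intersections of `U` with the spaces `spJ l E J` -/
noncomputable def vez (l : Fin q → Fin (n + 1) → k) (E U : Submodule k (Fin (n + 1) → k)) : ℕ × (Finset (Fin q) → ℕ) :=
  (finrank k U, fun J => finrank k ↥(U ⊓ spJ l E J))

/-- The list of subspaces is closed under the operations of the tree. -/
def Cpl (l : Fin q → Fin (n + 1) → k) (T : Finset (Submodule k (Fin (n + 1) → k))) : Prop :=
  ⊥ ∈ T ∧ ∀ E ∈ T, E ≠ ⊤ → (∀ 𝒥, E < mtz l E 𝒥 → mtz l E 𝒥 ∈ T) ∧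
    ∀ U, E < U → ∃ U' ∈ T, E < U' ∧ vez l E U' = vez l E U

end

/-! ### heights of subspaces -/

section

variable {k : Type u} [Field k] [NumberField k] {n q : ℕ}

/-- height of an element of `k` -/
noncomputable def h1z (c : k) : ℝ := gsum fun v : Pl k => Real.log (max 1 (nv v c))

/-- height of a family of vectors -/
noncomputable def hsz (b : Fin (n + 1) → Fin (n + 1) → k) : ℝ := ∑ i, ∑ j, h1z (b i j)

/-- height of a subspace -/
noncomputable def cxz (E : Submodule k (Fin (n + 1) → k)) : ℝ :=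
  sInf {t | ∃ b : Fin (n + 1) → Fin (n + 1) → k, Submodule.span k (Set.range b) = E ∧ hsz b = t}

/-- The list of subspaces is closed under the operations of the tree, with almost minimal heights. -/
def CplN (l : Fin q → Fin (n + 1) → k) (T : Finset (Submodule k (Fin (n + 1) → k))) : Prop :=
  ⊥ ∈ T ∧ ∀ E ∈ T, E ≠ ⊤ → (∀ 𝒥, E < mtz l E 𝒥 → mtz l E 𝒥 ∈ T) ∧
    ∀ U, E < U → ∃ U' ∈ T, E < U' ∧ vez l E U' = vez l E U ∧ cxz U' ≤ cxz U + 1

end

/-! ### subspaces over a field of germs -/

/-- The elements of `Λ` are germs of sequences of elements of `k` along the ultrafilter `U`. -/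
structure Trz (k Λ : Type*) [Field k] [Field Λ] (U : Ultrafilter ℕ) where
  rp : Λ → ℕ → k
  inj : ∀ x y, (∀ᶠ a in (U : Filter ℕ), rp x a = rp y a) → x = y
  add : ∀ x y, ∀ᶠ a in (U : Filter ℕ), rp (x + y) a = rp x a + rp y a
  mul : ∀ x y, ∀ᶠ a in (U : Filter ℕ), rp (x * y) a = rp x a * rp y a

/-- Every subspace of `k ^ (n + 1)` is spanned by `n + 1` vectors. -/
theorem exists_spz {k : Type*} [Field k] {n : ℕ} (E : Submodule k (Fin (n + 1) → k)) :
    ∃ β : Fin (n + 1) → Fin (n + 1) → k, Submodule.span k (Set.range β) = E := by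
  have hd : finrank k E ≤ n + 1 := by
    have := Submodule.finrank_le E
    rwa [Module.finrank_fin_fun] at this
  let b := Module.finBasis k E
  refine ⟨fun i => if h : (i : ℕ) < finrank k E then (b ⟨i, h⟩ : Fin (n + 1) → k) else 0, le_antisymm ?_ ?_⟩
  · rw [Submodule.span_le]
    rintro _ ⟨i, rfl⟩
    by_cases h : (i : ℕ) < finrank k E
    · simp only [dif_pos h]
      exact (b ⟨i, h⟩).2
    · simp only [dif_neg h]
      exact E.zero_mem
  · intro x hx
    have h1 := b.sum_repr ⟨x, hx⟩
    have h2 : x = ∑ i, b.repr ⟨x, hx⟩ i • (b i : Fin (n + 1) → k) := by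
      have := congrArg Subtype.val h1
      rw [Submodule.coe_sum] at this
      exact this.symm
    rw [h2]
    refine Submodule.sum_mem _ fun i _ => Submodule.smul_mem _ _ (Submodule.subset_span ⟨⟨i, lt_of_lt_of_le i.2 hd⟩, ?_⟩)
    simp only [dif_pos i.2]

/-- a subspace over `k` whose germ is `E` -/
noncomputable def Gm {k Λ : Type*} [Field k] [Field Λ] {U : Ultrafilter ℕ} (T : Trz k Λ U) {n : ℕ}
    (E : Submodule Λ (Fin (n + 1) → Λ)) (a : ℕ) : Submodule k (Fin (n + 1) → k) :=
  Submodule.span k (Set.range fun (i : Fin (n + 1)) (j : Fin (n + 1)) => T.rp (Classical.choose (exists_spz E) i j) a)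

/-! ### the slow germs -/

variable {k : Type u} [Field k] [NumberField k] {G : Type} [Group G] [Fintype G]

theorem exists_rpz {D : SqG k G} {F : GFG D} (z : slk F) :
    ∃ c : ℕ → k, ∀ᶠ a in (D.U : Filter ℕ), F.rp (z : F.K) a = algebraMap k (D.L a) (c a) := by
  have h1 : ∀ g, ∀ᶠ a in (D.U : Filter ℕ), D.s a g (F.rp (z : F.K) a) = F.rp (z : F.K) a := by
    intro g
    have h2 := F.rp_s g (z : F.K)
    rw [z.2.1 g] at h2
    filter_upwards [h2] with a h3
    exact h3.symm
  rw [← eventually_all] at h1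
  classical
  refine ⟨fun a => if h : ∀ g, D.s a g (F.rp (z : F.K) a) = F.rp (z : F.K) a then ((D.qs a).fix _ h).choose else 0, ?_⟩
  filter_upwards [h1] with a h
  rw [dif_pos h]
  exact ((D.qs a).fix _ h).choose_spec

/-- The slow germs are germs of sequences of elements of `k`. -/
noncomputable def trs {D : SqG k G} (F : GFG D) : Trz k (slk F) D.U where
  rp z := (exists_rpz z).choose
  inj := by
    intro x y h
    refine Subtype.ext (F.rp_inj _ _ ?_)
    filter_upwards [h, (exists_rpz x).choose_spec, (exists_rpz y).choose_spec] with a h1 h2 h3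
    rw [h2, h3, h1]
  add := by
    intro x y
    filter_upwards [(exists_rpz x).choose_spec, (exists_rpz y).choose_spec, (exists_rpz (x + y)).choose_spec,
      F.rp_add (x : F.K) (y : F.K)] with a h1 h2 h3 h4
    refine (algebraMap k (D.L a)).injective ?_
    rw [map_add, ← h1, ← h2, ← h3, ← h4]
    rfl
  mul := by
    intro x y
    filter_upwards [(exists_rpz x).choose_spec, (exists_rpz y).choose_spec, (exists_rpz (x * y)).choose_spec,
      F.rp_mul (x : F.K) (y : F.K)] with a h1 h2 h3 h4
    refine (algebraMap k (D.L a)).injective ?_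
    rw [map_mul, ← h1, ← h2, ← h3, ← h4]
    rfl

theorem trs_rp {D : SqG k G} (F : GFG D) (z : slk F) :
    ∀ᶠ a in (D.U : Filter ℕ), F.rp (z : F.K) a = algebraMap k (D.L a) ((trs F).rp z a) :=
  (exists_rpz z).choose_spec

theorem trs_eq {D : SqG k G} (F : GFG D) (z : slk F) (c : ℕ → k)
    (h : ∀ᶠ a in (D.U : Filter ℕ), F.rp (z : F.K) a = algebraMap k (D.L a) (c a)) :
    ∀ᶠ a in (D.U : Filter ℕ), (trs F).rp z a = c a := by
  filter_upwards [trs_rp F z, h] with a h1 h2
  exact (algebraMap k (D.L a)).injective (h1.symm.trans h2)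

end Pool.Agent.SQ
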